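import Pool.Agent.Helper9.HA.NmsM
import Pool.Agent.Helper46.HA.CFacts

/-!
# Project HA, module 13: the truth lemma for the certificates
-/

set_option autoImplicit false
set_option linter.unusedSectionVars false

namespace Pool.Agent.Helper69.HA

open Set Pool.Agent.Helper33.HM Pool.Agent.Helper33.HMG Pool.Agent.Helper32.HB
open Pool.Agent.Helper52.MA (El IsOmega1 setsM pairN numN on wN setN st PCCC Tr Meets mam_e)

section Transfer

variable {Ω : Type} [LinearOrder Ω] [WellFoundedLT Ω] {e : Ω → ℕ → Ω → Prop}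
  {code : Ordinal.{0} → Ω → Set (Cond Ordinal.{0} Ω)} {R : Type}
  {W : R → (ℕ → Nm (PC e code)) → PC e code → Nm (PC e code) → Prop}

variable (g : Gen W)

variable (hg : Meets Ω g) (hr : MeetsA g)
  (hix : ∀ U : Ω → RO (PC e code), ∃ i, ∀ γ, bt i γ = U γ)
include hg hr hix

theorem truth_br {σ : Nm (PC e code)} (hσ : σ ∈ g.N) {δ : Ω} (hδ : on δ ∈ g.N) {k : ℕ}
    {j : Ordinal.{0}} {v : Bool} (h : g.pc k ∈ Dv (ix σ) δ j v) :
    v = true ↔ mam_e g hδ ∈ brM g σ := by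
  have hbt : ∀ γ : Ω, bt (ix σ) γ = st σ γ := Classical.epsilon_spec (hix (st σ))
  have h1 : mam_e g hδ ∈ brM g σ ↔ Tr g (st σ δ) := (Pool.Agent.Helper52.MA.st_iff g hσ hδ).symm
  have h2 := (mem_Dv.1 h).2.2.2
  rw [hbt] at h2
  rw [h1]
  constructor
  · intro hv
    rw [if_pos hv] at h2
    exact ⟨k, h2⟩
  · rintro ⟨k', hk'⟩
    by_contra hv
    rw [if_neg hv] at h2
    exact h2 (g.pc (max k k')) (g.anti (le_max_left _ _))
      (RO.mem_lower (g.anti (le_max_right _ _)) hk')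

/-- The certificates of the model. -/
abbrev CM (σ : Nm (PC e code)) : Unit → El (g.val (wN Ω)) → El (g.val (wN Ω)) ⊕ ℕ → Bool → Prop :=
  Cer (I := Unit) (fun x y : El (g.val (wN Ω)) => x.1 ∈ y.1) (eM g)
    (fun _ δ _ v => (v = true ↔ δ ∈ brM g σ))
    (fun _ δ m x => EM g δ {γ | γ ∈ brM g σ ∧ γ.1 ∈ δ.1} m x)

theorem truth_cer {σ : Nm (PC e code)} (hσ : σ ∈ g.N) {k : ℕ}
    (he : EnumL (fun x y => x < y) e) {o : Ω ⊕ ℕ} {o' : El (g.val (wN Ω)) ⊕ ℕ}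
    (hoo : (∃ l, o = .inr l ∧ o' = .inr l) ∨
      ∃ (ξ : Ω) (hξ : on ξ ∈ g.N), o = .inl ξ ∧ o' = .inl (mam_e g hξ)) (δ : Ω) :
    ∀ (hδ : on δ ∈ g.N) (b : Bool), CE (g.pc k) (ix σ) δ o b → CM g σ () (mam_e g hδ) o' b := by
  induction δ using WellFoundedLT.induction with
  | _ δ ih =>
  intro hδ b h
  rcases CE_iff.1 h with ⟨rfl, rfl⟩ | ⟨ξ, rfl, hlt, rfl⟩ | ⟨κ, v, a, hD, hN, rfl⟩
  · rcases hoo with ⟨l, h1, -⟩ | ⟨ξ, hξ, h1, rfl⟩
    · cases h1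
    · cases h1
      exact .self _ _
  · rcases hoo with ⟨l, h1, -⟩ | ⟨ξ, hξ, h1, rfl⟩
    · cases h1
    · cases h1
      exact .above _ _ _ ((Pool.Agent.Helper52.MA.val_on_mem g hδ hξ).2 hlt)
  · have hv := truth_br g hg hr hix hσ hδ hD
    -- the certificates at the lower levels
    have hlow : ∀ {m : ℕ} {γ : Ω}, e δ m γ → ∀ {b : Bool}, CE (g.pc k) κ γ o b →
        ∃ hγ : on γ ∈ g.N, eM g (mam_e g hδ) m (mam_e g hγ) ∧
          CM g σ () (mam_e g hγ) o' b := by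
      intro m γ hm b hb
      have hγ : on γ ∈ g.N := pre_mem g hg hr hix hδ hm he
      have hlt : γ < δ := he.below _ _ _ hm
      exact ⟨hγ, (eM_of g hg hr hix hδ hγ).2 hm, ih γ hlt hγ b ((CE_coh hD hlt).2 hb)⟩
    have hall : ∀ {m : ℕ}, (∀ γ', e δ m γ' → CE (g.pc k) κ γ' o false) →
        ∀ γ'' : El (g.val (wN Ω)), eM g (mam_e g hδ) m γ'' → CM g σ () γ'' o' false := by
      intro m hm γ'' hγ''
      obtain ⟨γ', hγ', rfl⟩ := Pool.Agent.Helper52.MA.mam_surj g γ''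
      have h1 : e δ m γ' := (eM_of g hg hr hix hδ hγ').1 hγ''
      obtain ⟨_, -, h2⟩ := hlow h1 (hm γ' h1)
      exact h2
    have hC : ∀ {m x : ℕ}, ((g.pc k).f κ).c δ m = some x →
        EM g (mam_e g hδ) {γ | γ ∈ brM g σ ∧ γ.1 ∈ (mam_e g hδ).1} m x := fun hx =>
      EM_of g hg hr hix hσ hδ hD hx
    rcases hoo with ⟨l, rfl, rfl⟩ | ⟨ξ, hξ, rfl, rfl⟩
    · rcases hN with ⟨m, γ, x, h1, h2, h3, h4, h5, h6, rfl⟩ |
        ⟨m, γ, x, y, h1, h2, h3, h4, h5, h6, h7, rfl⟩ | ⟨y, h1, h2, rfl⟩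
      · obtain ⟨hγ, h7, h8⟩ := hlow h3 h4
        exact .hit _ _ _ () v m _ x hv h1 (fun m' hm' => hall (h2 m' hm')) h7 h8 (hC h5) h6
      · obtain ⟨hγ, h8, h9⟩ := hlow h3 h4
        exact .low _ _ _ () v m _ x y hv h1 (fun m' hm' => hall (h2 m' hm')) h8 h9 (hC h5) h6
          (hC h7)
      · exact .none _ _ _ () v y hv (fun m' hm' => hall (h1 m' hm')) (hC h2)
    · obtain ⟨hlt, m, γ, x, h2, h3, h4, h5, rfl⟩ := hN
      obtain ⟨hγ, h7, h8⟩ := hlow h3 h4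
      exact .step _ _ _ () v m _ x ((Pool.Agent.Helper52.MA.val_on_mem g hξ hδ).2 hlt) hv
        (fun m' hm' => hall (h2 m' hm')) h7 h8 (hC h5)

theorem truth_iff {σ : Nm (PC e code)} {δ : El (g.val (wN Ω))} {o' : El (g.val (wN Ω)) ⊕ ℕ}
    {b : Bool} (h : CM g σ () δ o' b) :
    MemL (fun x y : El (g.val (wN Ω)) => x.1 ∈ y.1) (eM g) (EM g) (brM g σ) δ o' ↔ b = true := by
  constructor
  · intro h'
    refine Cer.unique (lt := fun x y : El (g.val (wN Ω)) => x.1 ∈ y.1)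
      (fun x => ZFSet.mem_irrefl x.1) (fun x y => ZFSet.mem_asymm (x := x.1) (y := y.1)) ?_ ?_ h h'
    · intro j δ k v k' v' h1 h2
      refine ⟨rfl, ?_⟩
      have h3 : v = true ↔ v' = true := h1.trans h2.symm
      cases v <;> cases v' <;> simp_all
    · intro k δ m x y h1 h2
      exact EM_fun g hg hr hix h1 h2
  · rintro rfl
    exact h

theorem truthA {σ : Nm (PC e code)} (hσ : σ ∈ g.N) {δ : Ω} (hδ : on δ ∈ g.N) {k : ℕ} {b : Bool}
    (he : EnumL (fun x y => x < y) e) :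
    (∀ l : ℕ, CE (g.pc k) (ix σ) δ (.inr l) b →
      (MemL (fun x y : El (g.val (wN Ω)) => x.1 ∈ y.1) (eM g) (EM g) (brM g σ) (mam_e g hδ)
        (.inr l) ↔ b = true)) ∧
    ∀ ξ : Ω, ∀ hξ : on ξ ∈ g.N, CE (g.pc k) (ix σ) δ (.inl ξ) b →
      (MemL (fun x y : El (g.val (wN Ω)) => x.1 ∈ y.1) (eM g) (EM g) (brM g σ) (mam_e g hδ)
        (.inl (mam_e g hξ)) ↔ b = true) :=
  ⟨fun l h => truth_iff g hg hr hix
      (truth_cer g hg hr hix hσ he (o := .inr l) (o' := .inr l) (.inl ⟨l, rfl, rfl⟩) δ hδ b h),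
    fun ξ hξ h => truth_iff g hg hr hix
      (truth_cer g hg hr hix hσ he (o := .inl ξ) (o' := .inl (mam_e g hξ))
        (.inr ⟨ξ, hξ, rfl, rfl⟩) δ hδ b h)⟩

end Transfer

end Pool.Agent.Helper69.HA
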